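import Pool.Agent.W495.FM.HomDefs

/-!
# Cohomology of the generic point of a variety over a finite field: definitions
-/


namespace Pool.Agent.R299.FF2

open Pool.Agent.W495.FM

/-- The elements fixed by `φ` are linear combinations of values of `f`. -/
def SpansFixed (Ω : Type) {M E : Type} [Field Ω] [AddCommGroup E] [Module Ω E] (φ : E → E)
    (f : M → E) : Prop :=
  ∀ e, φ e = e → e ∈ Submodule.span Ω (Set.range f)

/-- The eigenvalue one of `φ` is semisimple. -/
def IsSemisimpleOne {E : Type} [AddCommGroup E] (φ : E → E) : Prop :=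
  ∀ e, φ (φ e - e) = φ e - e → φ e = e

/-- The groups of the generic point of a variety of dimension `d` over a finite field:
`M n j = CH^(d - j)(Spec of the function field, n - 2 j) ⊗ ℚ` and
`E n j = H^(2 d - n)(F₀, ℚ_ℓ(d - j)) ⊗ Ω`, with the Frobenius and the cycle class map. -/
structure Groups (Ω : Type) [Field Ω] where
  M : ℤ → ℤ → Type
  E : ℤ → ℤ → Type
  [grp : ∀ n j, AddCommGroup (E n j)]
  [mod : ∀ n j, Module Ω (E n j)]
  frob : ∀ n j, E n j → E n j
  reg : ∀ n j, M n j → E n j

attribute [instance] Groups.grp Groups.mod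

variable {Ω V : Type} [Field Ω] (T : Homology Ω V)

/-- The regulator is surjective onto the Frobenius invariant elements of `H_n(X, ℚ_ℓ(j))`, and the
eigenvalue one is semisimple. -/
def OntoAt (X : V) (n j : ℤ) : Prop :=
  SpansFixed Ω (T.frob X n j) (T.reg X n j) ∧ IsSemisimpleOne (T.frob X n j)

/-- Known properties of a variety `Z` of dimension at most `e`: the regulator is surjective onto the
invariant elements of `H_n(Z, ℚ_ℓ(j))`, with semisimple eigenvalue one, in the following cases:
`n < 2 j` (there are no invariants except zero, by Deligne's theorem on weights); `n = 2 e`, `j = e`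
(classes of the irreducible components of dimension `e`); `n = 2 e - 1`, `j = e - 1` (units on the
components: Kummer theory and weights); and always if `e ≤ 1` (Weil, Harder, Soulé). -/
def IsSmallVariety (Z : V) (e : ℤ) : Prop :=
  ∀ n j : ℤ, n < 2 * j ∨ (n = 2 * e ∧ j = e) ∨ (n = 2 * e - 1 ∧ j = e - 1) ∨ e ≤ 1 → OntoAt T Z n j

/-- `G` are the groups of the generic point of the variety `X` of dimension `d`: they are the direct
limits of the groups of the nonempty open subvarieties `U o`, the complements of the closed
subvarieties `Z o` of smaller dimension, with the restriction maps `r`. -/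
def IsGenericPoint (X : V) (d : ℤ) (G : Groups Ω) : Prop :=
  ∃ (O : Type) (Z U : O → V) (κ : ∀ o n j, T.M (U o) n j → G.M n j)
    (ι : ∀ o n j, T.E (U o) n j → G.E n j),
    (∀ o, IsTriple T (Z o) X (U o) ∧ IsSmallVariety T (Z o) (d - 1)) ∧
    (∀ n j (e : G.E n j), ∃ o x, ι o n j x = e) ∧
    ∀ o n j, IsLin Ω (ι o n j) ∧ (∀ x, ι o n j (T.reg _ n j x) = G.reg n j (κ o n j x)) ∧
      (∀ e, ι o n j (T.frob _ n j e) = G.frob n j (ι o n j e)) ∧
      ∀ x y, ι o n j x = ι o n j y → ∃ (o' : O) (r : Hom T (U o) n j (U o') n j),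
        r.g x = r.g y ∧ ∀ z, ι o' n j (r.g z) = ι o n j z

/-- The Tate conjecture for the function field and the pair `(i, k)`: each Frobenius invariant class in
`H^i(F₀, ℚ_ℓ(k))` is a linear combination of images of elements of `CH^k(Spec, 2 k - i)`. -/
def GenericTate (G : Groups Ω) (d i k : ℤ) : Prop :=
  SpansFixed Ω (G.frob (2 * d - i) (d - k)) (G.reg _ _)

end Pool.Agent.R299.FF2
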