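import Pool.Agent.R299.FF2.Defs
import Pool.Agent.W495.FM.Spread

/-!
# Cohomology of the generic point of a variety over a finite field
-/

set_option autoImplicit false

namespace Pool.Agent.R299.FF2

open Pool.Agent.W495.FM Module

variable {Ω : Type} [Field Ω] [CharZero Ω] {V : Type} {T : Homology Ω V}

theorem ontoAt_iff (hT : IsHomology T) (X : V) (n j : ℤ) :
    OntoAt T X n j ↔ (node T hT X n j).Onto := by
  rw [Node.onto_iff]
  have h3 : ∀ e, (hT.lin X n j).map e = T.frob X n j e := (hT.lin X n j).map_apply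
  refine and_congr (forall_congr' fun e => ?_) (forall_congr' fun e => ?_)
  · rw [← h3]
    exact Iff.rfl
  · rw [← h3 (T.frob X n j e - e), ← h3 e]
    exact Iff.rfl

/-- The complement: surjectivity. -/
theorem onto_open_at (hT : IsHomology T) {Z X U : V} (h : IsTriple T Z X U) {n j : ℤ}
    (hX : TB T X) (hZ : OntoAt T Z n j) : OntoAt T U (n + 1) j := by
  rw [ontoAt_iff hT] at hZ ⊢
  rw [tb_iff T hT] at hX
  obtain ⟨a, b, d, h⟩ := h j
  exact four ((b (n + 1)).arr hT) ((d n).arr hT) ((a n).arr hT)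
    (h n).2.2.1 (h n).2.1.snd (h n).2.2.snd (hX (n + 1) j).2 hZ (hX n j)

/-- Passage to the limit. -/
theorem generic_of_onto (hT : IsHomology T) {X : V} {d : ℤ} {G : Groups Ω}
    (hG : IsGenericPoint T X d G) {n j : ℤ}
    (hU : ∀ Z U : V, IsTriple T Z X U → IsSmallVariety T Z (d - 1) → OntoAt T U n j) :
    SpansFixed Ω (G.frob n j) (G.reg n j) := by
  intro e he
  obtain ⟨O, Z, U, κ, ι, h1, h3, h2⟩ := hG
  obtain ⟨o, x, rfl⟩ := h3 n j e
  obtain ⟨-, -, hfr, h4⟩ := h2 o n j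
  have h5 : ι o n j (T.frob _ n j x) = ι o n j x := by
    rw [hfr, he]
  obtain ⟨o', r, hr, hr'⟩ := h4 _ _ h5
  have h6 : T.frob _ n j (r.g x) = r.g x := by
    rw [r.frob, hr]
  have h7 := (hU (Z o') (U o') (h1 o').1 (h1 o').2).1 _ h6
  obtain ⟨⟨ψ, hψ⟩, hreg, -, -⟩ := h2 o' n j
  rw [← hr' x]
  refine Submodule.span_induction ?_ ?_ ?_ ?_ h7
  · rintro _ ⟨m, rfl⟩
    rw [hreg]
    exact Submodule.subset_span ⟨_, rfl⟩
  · rw [hψ, map_zero]
    exact Submodule.zero_mem _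
  · intro u v _ _ hu hv
    rw [hψ, map_add, ← hψ, ← hψ]
    exact Submodule.add_mem _ hu hv
  · intro c u _ hu
    rw [hψ, map_smul, ← hψ]
    exact Submodule.smul_mem _ c hu

theorem generic_tate (hT : IsHomology T) {X : V} (hX : TB T X) {d : ℤ}
    {G : Groups Ω} (hG : IsGenericPoint T X d G) {i k : ℤ}
    (h : 2 * k ≤ i ∨ (i = k ∧ k ≤ 2) ∨ d ≤ 2) : GenericTate G d i k := by
  refine generic_of_onto hT hG (fun Z U hZU hZ => ?_)
  obtain ⟨m, hm⟩ : ∃ m, 2 * d - i = m + 1 := ⟨2 * d - i - 1, by ring⟩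
  rw [hm]
  refine onto_open_at hT hZU hX (hZ m (d - k) ?_)
  omega

end Pool.Agent.R299.FF2
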